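import Pool.Agent.Mg.Fc00610.G91bcae

open Filter Topology

namespace Pool.Agent.Results.MP_c00610_co.IdemAsymptotic

theorem result : Tendsto (fun n : ℕ =>
    (Nat.card {A : Matrix (Fin n) (Fin n) Bool //
      ∀ i j, A i j = Finset.univ.sup fun k => min (A i k) (A k j)} : ℝ) /
    (3 * (∑' k : ℤ, (2 : ℝ) ^ (-((k : ℝ) - n / 2) ^ 2)) * √(2 / (Real.pi * n)) *
      (2 : ℝ) ^ ((n : ℝ) ^ 2 / 4 + 2 * n))) atTop (𝓝 1) :=
  Pool.Agent.MP_c00610_co.main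

end Pool.Agent.Results.MP_c00610_co.IdemAsymptotic
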