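import Pool.Agent.MP_c00610_co.Tr.All

open Filter Topology

namespace Pool.Agent.Results.MP_c00610_co.TraceThreshold

/-- Idempotent Boolean matrices with exactly `t n` ones on the diagonal: the asymptotic formula
holds if and only if `t n * 4 ^ t n / 2 ^ n` tends to zero. -/
theorem result : ∀ t : ℕ → ℕ, (∀ n, t n ≤ n) →
    (Tendsto (fun n : ℕ => (Nat.card {A : Matrix (Fin n) (Fin n) Bool //
      (∀ i j, A i j = Finset.univ.sup fun k => min (A i k) (A k j)) ∧
        (Finset.univ.filter fun i => A i i = true).card = t n} : ℝ) /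
      (n.choose (t n) * (2 ^ (t n + 1) - 1) ^ (n - t n))) atTop (𝓝 1) ↔
    Tendsto (fun n : ℕ => (t n : ℝ) * 4 ^ t n / 2 ^ n) atTop (𝓝 0)) :=
  Pool.Agent.MP_c00610_co.Tr.main

end Pool.Agent.Results.MP_c00610_co.TraceThreshold
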